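import Pool.Agent.Helper44.BB.Stmts
import Pool.Agent.Helper94.BE.Mertens

set_option autoImplicit false

/-! MP_3c8fe7_nt: an upper bound for the sum of the reciprocals of the primes. -/

open Finset

namespace Pool.Agent.Helper44.BB

theorem st_MER : ST_MER := by
  obtain ⟨c, hc, hM⟩ := Pool.Agent.Helper94.Mertens.exists_mertens
  refine ⟨1 + |Real.log c|, by positivity, fun Y hY => ?_⟩
  have hY2 : (2 : ℝ) ≤ Y := by
    have := Real.add_one_le_exp (1 : ℝ)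
    linarith
  have hY0 : 0 < Y := by linarith
  have hz : 2 ≤ ⌊Y⌋₊ := Nat.le_floor (by exact_mod_cast hY2)
  have hz' : (2 : ℝ) ≤ (⌊Y⌋₊ : ℝ) := by exact_mod_cast hz
  have hlz : 0 < Real.log (⌊Y⌋₊ : ℝ) := Real.log_pos (by linarith)
  have hle : Real.log (⌊Y⌋₊ : ℝ) ≤ Real.log Y :=
    Real.log_le_log (by linarith) (Nat.floor_le hY0.le)
  have hlY : 1 ≤ Real.log Y := by
    rw [Real.le_log_iff_exp_le hY0]
    exact hY
  have hll : 0 ≤ Real.log (Real.log Y) := Real.log_nonneg hlY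
  have h1 := hM ⌊Y⌋₊ hz
  have hprime : ∀ p ∈ pr Y, p.Prime := fun p hp => by
    unfold pr at hp
    exact (Finset.mem_filter.mp hp).2
  have h2 : Real.log (∏ p ∈ pr Y, (1 - 1 / (p : ℝ))) = ∑ p ∈ pr Y, Real.log (1 - 1 / (p : ℝ)) := by
    apply Real.log_prod
    intro p hp
    have h3 : (2 : ℝ) ≤ p := by exact_mod_cast (hprime p hp).two_le
    have h4 : 1 / (p : ℝ) ≤ 1 / 2 := one_div_le_one_div_of_le (by norm_num) h3
    linarith
  have h3 : Real.log (c / Real.log (⌊Y⌋₊ : ℝ)) ≤ ∑ p ∈ pr Y, Real.log (1 - 1 / (p : ℝ)) := by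
    rw [← h2]
    exact Real.log_le_log (by positivity) h1
  have h4 : ∑ p ∈ pr Y, Real.log (1 - 1 / (p : ℝ)) ≤ ∑ p ∈ pr Y, -(1 / (p : ℝ)) := by
    apply Finset.sum_le_sum
    intro p hp
    have h3 : (2 : ℝ) ≤ p := by exact_mod_cast (hprime p hp).two_le
    have h4 : 1 / (p : ℝ) ≤ 1 / 2 := one_div_le_one_div_of_le (by norm_num) h3
    have h5 := Real.log_le_sub_one_of_pos (x := 1 - 1 / (p : ℝ)) (by linarith)
    linarith
  rw [Finset.sum_neg_distrib] at h4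
  rw [Real.log_div hc.ne' hlz.ne'] at h3
  have h5 : Real.log (Real.log (⌊Y⌋₊ : ℝ)) ≤ Real.log (Real.log Y) := Real.log_le_log hlz hle
  have h6 : -|Real.log c| ≤ Real.log c := neg_abs_le _
  have h7 : 0 ≤ |Real.log c| := abs_nonneg _
  nlinarith [mul_nonneg h7 hll]

end Pool.Agent.Helper44.BB
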